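import Pool.Agent.H39.Newt2.Base

/-! # Project NEWTON2, module MBA: reduction to invariant functions -/

set_option autoImplicit false

namespace Pool.Newt2

open MvPolynomial Pool.Agent.H39.MonoR Pool.Agent.H75.Mono Pool.Newt

section Gen

variable {R : Type 1} [CommRing R] {σ I : Type} [Fintype σ] [Fintype I]

theorem MBA_ev_C (x : Rˣ) (n : ℤ) : ev x (LaurentPolynomial.C n) = (n : R) := by
  unfold ev
  rw [LaurentPolynomial.eval₂_C]
  rfl

theorem MBA_ev_T (x : Rˣ) : ev x (LaurentPolynomial.T 1) = (x : R) := by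
  unfold ev
  rw [LaurentPolynomial.eval₂_T, zpow_one]

open Classical in
theorem MBA_map_Psi (x : Rˣ) (a : I → σ → ℕ) (D : Finset I → ℤ) :
    PowerSeries.map (ev x) (Psi a D) =
      ∑ τ : Finset I, PowerSeries.C ((-1) ^ τ.card * (D τ : R)) *
        PowerSeries.map (ev x) (Fs a τ) := by
  unfold Psi
  rw [map_sum]
  refine Finset.sum_congr rfl fun τ _ => ?_
  rw [map_mul, PowerSeries.map_C, MBA_ev_C]
  push_cast
  rfl

open Classical in
theorem MBA_map_QQ (x : Rˣ) (a : I → σ → ℕ) :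
    PowerSeries.map (ev x) (QQ a) =
      ∑ τ : Finset I, PowerSeries.C (((x : R) - 1) ^ rk a τ) *
        PowerSeries.map (ev x) (Fs a τ) := by
  unfold QQ
  rw [map_sum]
  refine Finset.sum_congr rfl fun τ _ => ?_
  rw [map_mul, PowerSeries.map_C, map_pow, map_sub, map_one, MBA_ev_T]

open Classical in
/-- a function constant on classes: the sum is a combination of the series of the classes -/
theorem MBA_classes (x : Rˣ) (a : I → σ → ℕ) {Q : Type} [Fintype Q] (q : Finset I → Q) (d : Q → R) :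
    ∑ τ : Finset I, PowerSeries.C ((-1) ^ τ.card * d (q τ)) * PowerSeries.map (ev x) (Fs a τ) =
      ∑ κ : Q, PowerSeries.C (d κ) *
        PowerSeries.map (ev x) (Psi a fun τ => if q τ = κ then 1 else 0) := by
  have h : ∀ κ : Q, PowerSeries.C (d κ) *
        PowerSeries.map (ev x) (Psi a fun τ => if q τ = κ then 1 else 0) =
      ∑ τ : Finset I, if q τ = κ then PowerSeries.C ((-1) ^ τ.card * d κ) *
        PowerSeries.map (ev x) (Fs a τ) else 0 := by
    intro κ
    rw [MBA_map_Psi, Finset.mul_sum]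
    refine Finset.sum_congr rfl fun τ _ => ?_
    split_ifs with h
    · simp only [Int.cast_one, mul_one, map_mul]
      ring
    · simp
  rw [Finset.sum_congr rfl fun κ _ => h κ, Finset.sum_comm]
  refine Finset.sum_congr rfl fun τ _ => ?_
  rw [Finset.sum_ite_eq]
  simp

/-- the classes of a relation -/
theorem MBA_quot {T : Type} [Finite T] (r : T → T → Prop) (R : Type 1) :
    ∃ (Q : Type) (_ : Fintype Q) (q : T → Q), (∀ τ τ', r τ τ' → q τ = q τ') ∧
      ∀ f : T → R, (∀ τ τ', r τ τ' → f τ = f τ') → ∃ d : Q → R, ∀ τ, d (q τ) = f τ := by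
  let s : Setoid T := Relation.EqvGen.setoid r
  refine ⟨Quotient s, Fintype.ofFinite _, Quotient.mk s, fun τ τ' h =>
    Quotient.sound (Relation.EqvGen.rel _ _ h), fun f hf => ?_⟩
  refine ⟨Quotient.lift f ?_, fun τ => rfl⟩
  intro τ τ' h
  have h' : Relation.EqvGen r τ τ' := h
  clear h
  induction h' with
  | rel _ _ hm => exact hf _ _ hm
  | refl _ => rfl
  | symm _ _ _ ih => exact ih.symm
  | trans _ _ _ _ _ ih1 ih2 => exact ih1.trans ih2

open Classical in
theorem MBA_gen (x : Rˣ) (A : Subalgebra R (PowerSeries R)) (H : PowerSeries R) (hH : H ∈ A)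
    (hxH : PowerSeries.C (x : R) * H = (1 + H) * PowerSeries.X)
    (a : I → σ → ℕ) (c1 c0 : Finset I → R)
    (hrk : ∀ τ τ', Mov a τ τ' → rk a τ = rk a τ' + 1 ∧ τ.card = τ'.card + 1)
    (h1 : ∀ τ τ', Mov a τ τ' → c1 τ + c1 τ' = ((x : R) - 1) ^ (rk a τ - 1))
    (h0 : ∀ τ τ', Mov a τ τ' → c0 τ + c0 τ' = ((x : R) - 1) ^ (rk a τ - 1))
    (e1 : c1 ∅ = 0) (e0 : c0 ∅ = 1)
    (hA0 : ∀ D, Inv2 a D → D ∅ = 0 → PowerSeries.map (ev x) (Psi a D) ∈ A)
    (hA1 : ∀ D, Inv2 a D → D ∅ = 1 → PowerSeries.map (ev x)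
      ((1 - PowerSeries.X) * Psi a D - QQ a) ∈ A) :
    ∑ τ : Finset I, (PowerSeries.C (c1 τ) + PowerSeries.C (c0 τ) * H) *
      PowerSeries.map (ev x) (Fs a τ) ∈ A := by
  obtain ⟨Q, _, q, hq, hlift⟩ := MBA_quot (Mov a) R
  -- the invariant functions
  have key : ∀ c : Finset I → R, (∀ τ τ', Mov a τ τ' → c τ + c τ' = ((x : R) - 1) ^ (rk a τ - 1)) →
      ∃ d : Q → R, ∀ τ, d (q τ) = (-1) ^ τ.card * ((x : R) * c τ - ((x : R) - 1) ^ rk a τ) := by
    intro c hc
    have hinv : ∀ τ τ', Mov a τ τ' →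
        (-1) ^ τ.card * ((x : R) * c τ - ((x : R) - 1) ^ rk a τ) =
        (-1) ^ τ'.card * ((x : R) * c τ' - ((x : R) - 1) ^ rk a τ') := by
      intro τ τ' h
      obtain ⟨g1, g2⟩ := hrk τ τ' h
      have g3 := hc τ τ' h
      rw [g1, Nat.add_sub_cancel] at g3
      have g4 : c τ = ((x : R) - 1) ^ rk a τ' - c τ' := by rw [← g3]; ring
      rw [g1, g2, g4]
      ring
    exact hlift (fun τ => (-1) ^ τ.card * ((x : R) * c τ - ((x : R) - 1) ^ rk a τ)) hinv
  obtain ⟨d1, hd1⟩ := key c1 h1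
  obtain ⟨d0, hd0⟩ := key c0 h0
  -- the indicator functions are invariant
  have hind : ∀ κ : Q, Inv2 a fun τ => if q τ = κ then 1 else 0 := by
    intro κ τ τ' h
    show (if q τ = κ then (1 : ℤ) else 0) = if q τ' = κ then 1 else 0
    rw [hq τ τ' h]
  let P : Q → PowerSeries R := fun κ =>
    PowerSeries.map (ev x) (Psi a fun τ => if q τ = κ then 1 else 0)
  have hP : ∀ κ, κ ≠ q ∅ → P κ ∈ A := by
    intro κ hκ
    refine hA0 _ (hind κ) ?_
    show (if q ∅ = κ then (1 : ℤ) else 0) = 0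
    rw [if_neg (Ne.symm hκ)]
  have hP0 : (1 - PowerSeries.X) * P (q ∅) - PowerSeries.map (ev x) (QQ a) ∈ A := by
    have := hA1 _ (hind (q ∅)) (if_pos rfl)
    rw [map_sub, map_mul, map_sub, map_one, PowerSeries.map_X] at this
    exact this
  -- the identity
  have hmain : PowerSeries.C (x : R) * ∑ τ : Finset I,
      (PowerSeries.C (c1 τ) + PowerSeries.C (c0 τ) * H) * PowerSeries.map (ev x) (Fs a τ) =
      (∑ κ : Q, PowerSeries.C (d1 κ) * P κ) + H * (∑ κ : Q, PowerSeries.C (d0 κ) * P κ) +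
        (1 + H) * PowerSeries.map (ev x) (QQ a) := by
    have f1 : ∑ κ : Q, PowerSeries.C (d1 κ) * P κ = ∑ τ : Finset I,
        PowerSeries.C ((-1) ^ τ.card * d1 (q τ)) * PowerSeries.map (ev x) (Fs a τ) :=
      (MBA_classes x a q d1).symm
    have f0 : ∑ κ : Q, PowerSeries.C (d0 κ) * P κ = ∑ τ : Finset I,
        PowerSeries.C ((-1) ^ τ.card * d0 (q τ)) * PowerSeries.map (ev x) (Fs a τ) :=
      (MBA_classes x a q d0).symm
    rw [f1, f0, MBA_map_QQ, Finset.mul_sum,
      Finset.mul_sum, Finset.mul_sum, ← Finset.sum_add_distrib, ← Finset.sum_add_distrib]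
    refine Finset.sum_congr rfl fun τ _ => ?_
    have hs : ∀ y : R, (-1 : R) ^ τ.card * ((-1) ^ τ.card * y) = y := by
      intro y
      rw [← mul_assoc, ← mul_pow]
      simp
    rw [hd1, hd0, hs, hs]
    simp only [map_sub, map_mul]
    ring
  have hd1e : d1 (q ∅) = -1 := by
    rw [hd1, Finset.card_empty, rk_empty, e1]
    ring
  have hd0e : d0 (q ∅) = (x : R) - 1 := by
    rw [hd0, Finset.card_empty, rk_empty, e0]
    ring
  have hmem : PowerSeries.C (x : R) * ∑ τ : Finset I,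
      (PowerSeries.C (c1 τ) + PowerSeries.C (c0 τ) * H) * PowerSeries.map (ev x) (Fs a τ) ∈ A := by
    rw [hmain, ← Finset.add_sum_erase _ _ (Finset.mem_univ (q ∅)),
      ← Finset.add_sum_erase Finset.univ (fun κ => PowerSeries.C (d0 κ) * P κ)
        (Finset.mem_univ (q ∅)), hd1e, hd0e]
    have e : PowerSeries.C (-1 : R) * P (q ∅) +
          ∑ κ ∈ Finset.univ.erase (q ∅), PowerSeries.C (d1 κ) * P κ +
        H * (PowerSeries.C ((x : R) - 1) * P (q ∅) +
          ∑ κ ∈ Finset.univ.erase (q ∅), PowerSeries.C (d0 κ) * P κ) +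
        (1 + H) * PowerSeries.map (ev x) (QQ a) =
        (∑ κ ∈ Finset.univ.erase (q ∅), PowerSeries.C (d1 κ) * P κ) +
        H * (∑ κ ∈ Finset.univ.erase (q ∅), PowerSeries.C (d0 κ) * P κ) -
        (1 + H) * ((1 - PowerSeries.X) * P (q ∅) - PowerSeries.map (ev x) (QQ a)) := by
      simp only [map_sub, map_one, map_neg]
      linear_combination P (q ∅) * hxH
    rw [e]
    refine sub_mem (add_mem (sum_mem fun κ hκ => mul_mem (A.algebraMap_mem _)
      (hP κ (Finset.ne_of_mem_erase hκ))) (mul_mem hH (sum_mem fun κ hκ =>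
      mul_mem (A.algebraMap_mem _) (hP κ (Finset.ne_of_mem_erase hκ)))))
      (mul_mem (add_mem (one_mem _) hH) hP0)
  have hx : PowerSeries.C ((x⁻¹ : Rˣ) : R) * PowerSeries.C (x : R) = 1 := by
    rw [← map_mul, Units.inv_mul, map_one]
  have := mul_mem (A.algebraMap_mem ((x⁻¹ : Rˣ) : R)) hmem
  rw [← mul_assoc] at this
  have e2 : algebraMap R (PowerSeries R) ((x⁻¹ : Rˣ) : R) * PowerSeries.C (x : R) = 1 := hx
  rw [e2, one_mul] at this
  exact this

end Gen

open Classical in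
theorem sMba (hLap : SLap) : SMba := by
  intro k _ _ σ I _ _ a C hC h1 h0 S hS hA0 hA1
  have hHe : PowerSeries.C (↑(Lu k) : M k) * ZET_H (Lu k) =
      (1 + ZET_H (Lu k)) * PowerSeries.X := by
    have h := ZET_H_eq (Lu k)
    unfold den' at h
    rw [zpow_neg, zpow_one, pow_one] at h
    have hx : PowerSeries.C (↑(Lu k) : M k) * PowerSeries.C (↑(Lu k)⁻¹ : M k) = 1 := by
      rw [← map_mul, Units.mul_inv, map_one]
    linear_combination PowerSeries.C (↑(Lu k) : M k) * h +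
      (PowerSeries.X * ZET_H (Lu k) + PowerSeries.X) * hx
  have hH : ZET_H (Lu k) ∈ RS k S := by
    refine (Algebra.adjoin_mono (s := {PowerSeries.X} ∪ {g | ∃ p ∈ ({((-1 : ℤ), (1 : ℕ))} :
      Set (ℤ × ℕ)), g * den k p = 1}) ?_) ?_
    · rintro g (hg | ⟨p, hp, hg⟩)
      · exact Or.inl hg
      · refine Or.inr ⟨p, ?_, hg⟩
        rw [Set.mem_singleton_iff] at hp
        rw [hp]
        exact hS
    · refine RatF.mem_RS (S := {((-1 : ℤ), (1 : ℕ))}) (T := Unit) (F := fun _ => ZET_H (Lu k))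
        ?_ ?_ ()
      · intro p hp
        rw [Set.mem_singleton_iff] at hp
        rw [hp]
        exact one_pos
      · refine ⟨{(-1, 1)}, ?_, 2, fun _ m hm => ?_⟩
        · intro p hp
          rw [Multiset.mem_singleton] at hp
          rw [hp]
          exact rfl
        · rw [Multiset.map_singleton, Multiset.prod_singleton, ZET_H_eq, PowerSeries.coeff_C_mul,
            PowerSeries.coeff_X, if_neg (by omega), mul_zero]
  have hrk : ∀ τ τ', Mov a τ τ' → rk a τ = rk a τ' + 1 ∧ τ.card = τ'.card + 1 := by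
    rintro τ τ' ⟨i, l, hv, rfl⟩
    refine ⟨(hLap σ I PEmpty a τ i l hv).1, ?_⟩
    rw [Finset.card_erase_of_mem hv.1]
    have := Finset.card_pos.2 ⟨i, hv.1⟩
    omega
  refine MBA_gen (Lu k) (RS k S) (ZET_H (Lu k)) hH hHe a (fun τ => C τ 1) (fun τ => C τ 0) hrk
    ?_ ?_ h1 h0 hA0 hA1
  · rintro τ τ' ⟨i, l, hv, rfl⟩
    exact hC τ i l 1 hv
  · rintro τ τ' ⟨i, l, hv, rfl⟩
    exact hC τ i l 0 hv

end Pool.Newt2
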